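import Pool.Agent.Helper61.QL.Goals

/-!
# Project QL (MP_0ebdb3_gt, captain helper61), packet SRL

Port of `Pool/Agent/Helper13/QS/SR1.lean` (curvature of the metrics of Kaluza-Klein type in the
twisted polar coordinates).
-/

set_option autoImplicit false

open Set ComplexConjugate

namespace Pool.Agent.Helper30.QL

open Pool.Agent.Helper61 Pool.Agent.Helper61.QG Pool.Agent.Helper61.QT Pool.Agent.Helper61.QL
open Pool.Agent.Helper61.QS (V En tr rk W X TX act R4 UC IsIso compr IsTrans Box Compat BoxSplit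
  lN lS lΨ IsCurv Gam dd)
open Pool.Agent.Helper61.QM (Model Mm)

/-- derivative along a line -/
theorem fderiv_line {F : R4 → ℝ} {y v : R4} (hF : DifferentiableAt ℝ F y) {φ : ℝ → ℝ} {c : ℝ}
    (h : ∀ t : ℝ, F (y + t • v) = φ t) (hφ : HasDerivAt φ c 0) : fderiv ℝ F y v = c := by
  have h1 : HasDerivAt (fun t : ℝ => y + t • v) v 0 := by
    have h2 := ((hasDerivAt_id (0 : ℝ)).smul_const v).const_add y
    simpa using h2
  have h3 : HasFDerivAt F (fderiv ℝ F y) (y + (0 : ℝ) • v) := by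
    rw [zero_smul, add_zero]
    exact hF.hasFDerivAt
  have h4 : HasDerivAt (fun t : ℝ => F (y + t • v)) (fderiv ℝ F y v) 0 :=
    h3.comp_hasDerivAt 0 h1
  have h5 : (fun t : ℝ => F (y + t • v)) = φ := funext h
  rw [h5] at h4
  exact h4.unique hφ

/-- the unit vectors -/
abbrev er : R4 := (1, 0, 0, 0)
abbrev et : R4 := (0, 1, 0, 0)

/-- `β + Λ(r,α)` -/
def bL (Λ : ℝ × ℝ → ℝ) (x : R4) : ℝ := x.2.2.2 + Λ (x.1, x.2.2.1)

/-- `∂θ q` -/
noncomputable def dth (Λ : ℝ × ℝ → ℝ) (x : R4) : ℂ × ℝ :=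
  (Complex.exp (bL Λ x * Complex.I) * Real.cos x.2.1, -Real.sin x.2.1)

theorem polL_eq (Λ : ℝ × ℝ → ℝ) (x : R4) : polL Λ x =
    (((Real.cos x.1 : ℂ), Complex.exp (x.2.2.1 * Complex.I) * Real.sin x.1),
    (Complex.exp (bL Λ x * Complex.I) * Real.sin x.2.1, Real.cos x.2.1)) := rfl

/-- the explicit derivative -/
theorem dpolL (hPL : QS.G_PL) (hPOL : G_POL) (m : ℤ) (Λ : ℝ × ℝ → ℝ) (hΛ : IsShift Λ) (x a : R4) :
    fderiv ℝ (polL Λ) x a =
    ((-(Real.sin x.1 * a.1 : ℂ), Complex.exp (x.2.2.1 * Complex.I) *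
        (Real.cos x.1 * a.1 + Complex.I * Real.sin x.1 * a.2.2.1)),
      (Complex.exp (bL Λ x * Complex.I) *
        (Real.cos x.2.1 * a.2.1 + Complex.I * Real.sin x.2.1 *
          ((a.2.2.2 + fderiv ℝ Λ (x.1, x.2.2.1) (a.1, a.2.2.1) : ℝ) : ℂ)),
        -(Real.sin x.2.1 * a.2.1))) := by
  rw [(hPOL m Λ hΛ).2.2 x a, hPL.2.2.2.1]
  rfl

theorem kap_gen (hPL : QS.G_PL) (hPOL : G_POL) (m : ℤ) (Λ : ℝ × ℝ → ℝ) (hΛ : IsShift Λ)
    (μ : ℂ × ℂ → (ℂ × ℂ) →L[ℝ] ℝ) (x u : R4) :
    kapL μ (polL Λ x) (fderiv ℝ (polL Λ) x u) =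
      u.2.1 • dth Λ x +
      (u.2.2.2 + fderiv ℝ Λ (x.1, x.2.2.1) (u.1, u.2.2.1) -
        μ (polL Λ x).1 (fderiv ℝ (polL Λ) x u).1) • (Complex.I * (polL Λ x).2.1, (0 : ℝ)) := by
  have h1 := dpolL hPL hPOL m Λ hΛ x u
  unfold kapL
  generalize μ (polL Λ x).1 (fderiv ℝ (polL Λ) x u).1 = η
  rw [h1, polL_eq]
  refine Prod.ext ?_ ?_
  · simp only [Prod.fst_add, Prod.smul_fst, Complex.real_smul, dth]
    push_cast
    ring
  · simp only [Prod.snd_add, Prod.smul_snd, smul_eq_mul, dth]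
    ring

theorem kap_et (hPL : QS.G_PL) (hPOL : G_POL) (m : ℤ) (Λ : ℝ × ℝ → ℝ) (hΛ : IsShift Λ)
    (μ : ℂ × ℂ → (ℂ × ℂ) →L[ℝ] ℝ) (x : R4) :
    kapL μ (polL Λ x) (fderiv ℝ (polL Λ) x et) = dth Λ x := by
  have h1 : (fderiv ℝ (polL Λ) x et).1 = 0 := by
    rw [dpolL hPL hPOL m Λ hΛ x et]
    simp [et]
  rw [kap_gen hPL hPOL m Λ hΛ, h1, map_zero]
  have h2 : fderiv ℝ Λ (x.1, x.2.2.1) ((et : R4).1, (et : R4).2.2.1) = 0 := by
    have : (((et : R4).1, (et : R4).2.2.1) : ℝ × ℝ) = 0 := rfl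
    rw [this, map_zero]
  rw [h2]
  simp [et]

theorem kap_er (hPL : QS.G_PL) (hPOL : G_POL) (m : ℤ) (Λ : ℝ × ℝ → ℝ) (hΛ : IsShift Λ)
    (μ : ℂ × ℂ → (ℂ × ℂ) →L[ℝ] ℝ) (hμ : IsRad μ Λ) (x : R4) :
    kapL μ (polL Λ x) (fderiv ℝ (polL Λ) x er) = 0 := by
  rw [kap_gen hPL hPOL m Λ hΛ]
  have h1 : (fderiv ℝ (polL Λ) x er).1 =
      (-(Real.sin x.1 : ℂ), Complex.exp (x.2.2.1 * Complex.I) * Real.cos x.1) := by
    rw [dpolL hPL hPOL m Λ hΛ x er]
    simp [er]
  have h2 : fderiv ℝ Λ (x.1, x.2.2.1) ((er : R4).1, (er : R4).2.2.1) =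
      μ (polL Λ x).1 (fderiv ℝ (polL Λ) x er).1 := by
    rw [h1]
    exact hμ x.1 x.2.2.1
  rw [h2]
  simp [er]

/-- `K(∂θ q, ∂β q) = 0` -/
theorem K_et_eb (K : W → (ℂ × ℝ) →L[ℝ] (ℂ × ℝ) →L[ℝ] ℝ)
    (hmer : ∀ P ∈ X, K P (mer P) (Complex.I * P.2.1, 0) = 0) (Λ : ℝ × ℝ → ℝ)
    (hmem : ∀ x, polL Λ x ∈ X) (x : R4) :
    K (polL Λ x) (dth Λ x) (Complex.I * (polL Λ x).2.1, (0 : ℝ)) = 0 := by
  have h1 := hmer (polL Λ x) (hmem x)
  have h2 : mer (polL Λ x) = (-Real.sin x.2.1) • dth Λ x := by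
    rw [polL_eq]
    unfold mer dth
    refine Prod.ext ?_ ?_
    · simp only [Prod.smul_fst, Complex.real_smul]
      push_cast
      ring
    · simp only [Prod.smul_snd, smul_eq_mul]
      nlinarith [Real.sin_sq_add_cos_sq x.2.1]
  rw [h2, map_smul] at h1
  rcases eq_or_ne (Real.sin x.2.1) 0 with h3 | h3
  · have h4 : (Complex.I * (polL Λ x).2.1, (0 : ℝ)) = (0 : ℂ × ℝ) := by
      rw [polL_eq]
      simp only [h3]
      simp
    rw [h4, map_zero]
  · have h5 : -Real.sin x.2.1 * K (polL Λ x) (dth Λ x)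
        (Complex.I * (polL Λ x).2.1, (0 : ℝ)) = 0 := h1
    exact (mul_eq_zero.mp h5).resolve_left (neg_ne_zero.mpr h3)

/-- the point `((1,0),(sin θ, cos θ))` -/
noncomputable def P0 (θ : ℝ) : W := (((1 : ℂ), (0 : ℂ)), ((Real.sin θ : ℂ), Real.cos θ))

theorem P0_mem (θ : ℝ) : P0 θ ∈ X := by
  refine ⟨?_, ?_⟩
  · change ‖(1 : ℂ)‖ ^ 2 + ‖(0 : ℂ)‖ ^ 2 = 1
    simp
  · change ‖(Real.sin θ : ℂ)‖ ^ 2 + Real.cos θ ^ 2 = 1
    rw [Complex.norm_real, Real.norm_eq_abs, sq_abs, Real.sin_sq_add_cos_sq]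

/-- `K(∂θ q, ∂θ q) = A(θ)` -/
theorem K_et_et (K : W → (ℂ × ℝ) →L[ℝ] (ℂ × ℝ) →L[ℝ] ℝ) (hK : ContDiff ℝ 3 K)
    (hsp : ∀ P ∈ X, ∀ P' ∈ X, P.2.2 = P'.2.2 → K P (mer P) (mer P) = K P' (mer P') (mer P'))
    (Λ : ℝ × ℝ → ℝ) (hΛ : IsShift Λ)
    (hmem : ∀ x, polL Λ x ∈ X) (hc : Continuous (polL Λ)) (hd : Dense QS.Reg) (x : R4) :
    K (polL Λ x) (dth Λ x) (dth Λ x) = AL K x.2.1 := by
  have hcb : Continuous (bL Λ) := by
    have := hΛ.sm.continuous
    unfold bL
    fun_prop
  have hct : Continuous (dth Λ) := by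
    unfold dth
    fun_prop
  have hcK : Continuous K := hK.continuous
  have h1 : (fun x : R4 => K (polL Λ x) (dth Λ x) (dth Λ x)) = fun x => AL K x.2.1 := by
    refine Continuous.ext_on hd ?_ ?_ ?_
    · exact ((hcK.comp hc).clm_apply hct).clm_apply hct
    · unfold AL
      have e1 : Continuous fun x : R4 => K (((1 : ℂ), (0 : ℂ)), ((Real.sin x.2.1 : ℂ),
          Real.cos x.2.1)) := hcK.comp (by fun_prop)
      have e2 : Continuous fun x : R4 => (((Real.cos x.2.1 : ℂ), -Real.sin x.2.1) : ℂ × ℝ) := by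
        fun_prop
      exact (e1.clm_apply e2).clm_apply e2
    · intro x hx
      have hs : Real.sin x.2.1 ≠ 0 := hx.2.2
      have h2 : mer (polL Λ x) = (-Real.sin x.2.1) • dth Λ x := by
        rw [polL_eq]
        unfold mer dth
        refine Prod.ext ?_ ?_
        · simp only [Prod.smul_fst, Complex.real_smul]
          push_cast
          ring
        · simp only [Prod.smul_snd, smul_eq_mul]
          nlinarith [Real.sin_sq_add_cos_sq x.2.1]
      have h3 : mer (P0 x.2.1) = (-Real.sin x.2.1) •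
          (((Real.cos x.2.1 : ℂ), -Real.sin x.2.1) : ℂ × ℝ) := by
        unfold mer P0
        refine Prod.ext ?_ ?_
        · simp only [Prod.smul_fst, Complex.real_smul]
          push_cast
          ring
        · simp only [Prod.smul_snd, smul_eq_mul]
          nlinarith [Real.sin_sq_add_cos_sq x.2.1]
      have h4 := hsp (polL Λ x) (hmem x) (P0 x.2.1) (P0_mem _) rfl
      rw [h2, h3, map_smul, map_smul, map_smul, map_smul] at h4
      have h5 : -Real.sin x.2.1 * (-Real.sin x.2.1 * K (polL Λ x) (dth Λ x) (dth Λ x)) =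
          -Real.sin x.2.1 * (-Real.sin x.2.1 * AL K x.2.1) := h4
      have h6 := mul_left_cancel₀ (neg_ne_zero.2 hs) h5
      exact mul_left_cancel₀ (neg_ne_zero.2 hs) h6
  exact congrFun h1 x

/-- PACKET QL-SRL. -/
theorem goalSRL (hPL : QS.G_PL) (hPOL : G_POL) (hGBX : QT.G_GBX) : G_SRL := by
  intro m gM φ H K μ Λ hB hKK hΛ hμ
  have hP : IsPolar (Mm m) (polL Λ) QS.Reg := (hPOL m Λ hΛ).1
  obtain ⟨hC2, hsym, hpos, hex⟩ := hGBX W (Mm m) (polL Λ) QS.Reg gM hP hB
  have hφ := hKK.smφ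
  have hφ0 := hKK.posφ
  have hmem : ∀ x, polL Λ x ∈ X := hP.mem
  have htan : ∀ x c, fderiv ℝ (polL Λ) x c ∈ TX (polL Λ x) := hP.tan
  set h : R4 → R4 →L[ℝ] R4 →L[ℝ] ℝ := gB gM (polL Λ) with hh
  -- the general formula
  have E0 : ∀ x u v, h x u v = φ (Real.cos x.2.1) ^ 2 *
      H (polL Λ x).1 (fderiv ℝ (polL Λ) x u).1 (fderiv ℝ (polL Λ) x v).1 +
      K (polL Λ x) (kapL μ (polL Λ x) (fderiv ℝ (polL Λ) x u))
        (kapL μ (polL Λ x) (fderiv ℝ (polL Λ) x v)) :=
    fun x u v => hKK.eq (polL Λ x) (hmem x) _ (htan x u) _ (htan x v)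
  -- `h ∂θ u = A u_θ`
  have E1 : ∀ x u, h x et u = AL K x.2.1 * u.2.1 := by
    intro x u
    have h1 : (fderiv ℝ (polL Λ) x et).1 = 0 := by
      rw [dpolL hPL hPOL m Λ hΛ x et]
      simp [et]
    rw [E0, kap_et hPL hPOL m Λ hΛ, kap_gen hPL hPOL m Λ hΛ, map_add, map_smul, map_smul,
      K_et_et K hKK.smK hKK.speed Λ hΛ hmem hP.smooth.continuous hP.dense,
      K_et_eb K hKK.polar Λ hmem, h1, map_zero]
    simp [mul_comm]
  have E2 : ∀ x u, h x u et = AL K x.2.1 * u.2.1 := fun x u => by rw [hsym, E1]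
  -- `h ∂r u = f² M`
  set M : R4 → R4 → ℝ := fun x u =>
    H (polL Λ x).1 (fderiv ℝ (polL Λ) x er).1 (fderiv ℝ (polL Λ) x u).1 with hM
  have E3 : ∀ x u, h x er u = QS.fφ φ x.2.1 ^ 2 * M x u := by
    intro x u
    rw [E0, kap_er hPL hPOL m Λ hΛ μ hμ, map_zero]
    simp [hM, QS.fφ]
  have hMt : ∀ x u, ∀ t : ℝ, M (x + t • et) u = M x u := by
    intro x u t
    have h1 : (polL Λ (x + t • et)).1 = (polL Λ x).1 := by
      rw [polL_eq, polL_eq]
      simp [et]
    have h2 : ∀ v, (fderiv ℝ (polL Λ) (x + t • et) v).1 = (fderiv ℝ (polL Λ) x v).1 := by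
      intro v
      rw [dpolL hPL hPOL m Λ hΛ (x + t • et) v, dpolL hPL hPOL m Λ hΛ x v]
      simp [et]
    simp only [hM]
    rw [h1, h2, h2]
  -- differentiability
  have hd2 : ∀ u v, ContDiff ℝ 2 (fun y => h y u v) := fun u v =>
    (hC2.clm_apply contDiff_const).clm_apply contDiff_const
  have hd : ∀ u v x, DifferentiableAt ℝ (fun y => h y u v) x := fun u v x =>
    (hd2 u v).differentiable (by norm_num) x
  have hf3 : ContDiff ℝ 3 (QS.fφ φ) := hφ.comp (Real.contDiff_cos.of_le (by exact le_top))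
  have hf1 : ∀ θ, HasDerivAt (QS.fφ φ) (deriv (QS.fφ φ) θ) θ := fun θ =>
    (hf3.differentiable (by norm_num) θ).hasDerivAt
  have hf2 : ∀ θ, HasDerivAt (deriv (QS.fφ φ)) (deriv (deriv (QS.fφ φ)) θ) θ := fun θ => by
    have h1 : ContDiff ℝ 2 (deriv (QS.fφ φ)) := by
      have h2 : ContDiff ℝ (2 + 1) (QS.fφ φ) := hf3
      exact (contDiff_succ_iff_deriv.mp h2).2.2
    exact (h1.differentiable (by norm_num) θ).hasDerivAt
  have hA1 : ∀ θ, HasDerivAt (AL K) (deriv (AL K) θ) θ := fun θ => by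
    have h1 : AL K = fun s : ℝ => h ((0 : R4) + s • et) et et := by
      funext s
      rw [E1]
      simp [et]
    have h2 : DifferentiableAt ℝ (AL K) θ := by
      rw [h1]
      have h3 : DifferentiableAt ℝ (fun s : ℝ => (0 : R4) + s • et) θ := by fun_prop
      exact (hd et et ((0 : R4) + θ • et)).comp θ h3
    exact h2.hasDerivAt
  have hshift : ∀ (g : ℝ → ℝ) (c θ : ℝ), HasDerivAt g c θ →
      HasDerivAt (fun t : ℝ => g (θ + t)) c 0 := by
    intro g c θ hg
    have h1 : HasDerivAt g c (θ + 0) := by rwa [add_zero]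
    exact h1.comp_const_add θ 0
  constructor
  · -- positivity of `A`
    intro θ
    have h1 := hB.pos (polL Λ (0, θ, 0, 0)) (hmem _) (fderiv ℝ (polL Λ) (0, θ, 0, 0) et)
      (htan _ _) (by
        rintro ⟨τ, hτ⟩
        rw [dpolL hPL hPOL m Λ hΛ (0, θ, 0, 0) et, polL_eq] at hτ
        have e1 := congrArg (fun P : W => P.1.1) hτ
        have e2 := congrArg (fun P : W => P.2.2) hτ
        have e3 := congrArg (fun P : W => P.2.1) hτ
        simp [et] at e1
        rw [e1] at e2 e3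
        simp [et] at e2
        have hz : fderiv ℝ Λ (0, 0) (0, 0) = 0 := (fderiv ℝ Λ (0, 0)).map_zero
        simp [et, hz] at e3
        have e4 : Real.cos θ = 0 := by exact_mod_cast e3
        have e5 := Real.sin_sq_add_cos_sq θ
        rw [e4, e2] at e5
        norm_num at e5)
    have h2 : h (0, θ, 0, 0) et et = AL K θ := by
      rw [E1]
      simp [et]
    rw [← h2]
    exact h1
  · intro x hx
    have hfpos : 0 < QS.fφ φ x.2.1 := hφ0 _
    have hApos : 0 < AL K x.2.1 := by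
      have h1 := hpos x hx et (by
        intro h0
        have := congrArg (fun y : R4 => y.2.1) h0
        simp [et] at this)
      rw [E1] at h1
      simpa [et] using h1
    set f := QS.fφ φ with hfdef
    set Am := AL K with hAdef
    have hrr : 0 < M x er := by
      have h1 := hpos x hx er (by
        intro h0
        have := congrArg (fun y : R4 => y.1) h0
        simp [er] at this)
      rw [E3] at h1
      exact pos_of_mul_pos_right h1 (by positivity)
    refine ⟨M x er, hrr, ?_⟩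
    -- first derivatives
    have D1 : ∀ y u, fderiv ℝ (fun y => h y et u) y er = 0 := by
      intro y u
      refine fderiv_line (hd et u y) (φ := fun _ => Am y.2.1 * u.2.1) (fun t => ?_)
        (hasDerivAt_const _ _)
      change h (y + t • er) et u = _
      rw [E1]
      simp [er]
    have D2 : ∀ y u, fderiv ℝ (fun y => h y er u) y et = 2 * f y.2.1 * deriv f y.2.1 * M y u := by
      intro y u
      have h1 : HasDerivAt (fun t : ℝ => f (y.2.1 + t) ^ 2 * M y u)
          (2 * f y.2.1 * deriv f y.2.1 * M y u) 0 := by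
        have h2 := ((hshift f _ _ (hf1 y.2.1)).pow 2).mul_const (M y u)
        simpa using h2
      refine fderiv_line (hd er u y) (fun t => ?_) h1
      change h (y + t • et) er u = _
      rw [E3, hMt]
      simp [et]
    have hrt : (fun y => h y er et) = fun _ => (0 : ℝ) := by
      funext y
      rw [E2]
      simp [er]
    have D3 : ∀ y u, fderiv ℝ (fun y => h y er et) y u = 0 := by
      intro y u
      rw [hrt]
      simp
    have D4 : ∀ y u, fderiv ℝ (fun y => h y et u) y et = deriv Am y.2.1 * u.2.1 := by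
      intro y u
      have h1 : HasDerivAt (fun t : ℝ => Am (y.2.1 + t) * u.2.1) (deriv Am y.2.1 * u.2.1) 0 :=
        (hshift Am _ _ (hA1 y.2.1)).mul_const _
      refine fderiv_line (hd et u y) (fun t => ?_) h1
      change h (y + t • et) et u = _
      rw [E1]
      simp [et]
    have D5 : ∀ y u, fderiv ℝ (fun y => h y et et) y u = deriv Am y.2.1 * u.2.1 := by
      intro y u
      have h1 : HasDerivAt (fun t : ℝ => Am (y.2.1 + t * u.2.1)) (deriv Am y.2.1 * u.2.1) 0 := by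
        have h2 : HasDerivAt (fun t : ℝ => y.2.1 + t * u.2.1) u.2.1 0 := by
          have h3 := ((hasDerivAt_id (0 : ℝ)).mul_const u.2.1).const_add y.2.1
          simpa using h3
        have h4 : HasDerivAt Am (deriv Am y.2.1) (y.2.1 + 0 * u.2.1) := by
          rw [zero_mul, add_zero]
          exact hA1 _
        exact h4.comp (0 : ℝ) h2
      refine fderiv_line (hd et et y) (fun t => ?_) h1
      change h (y + t • u) et et = _
      rw [E1]
      simp [et]
    obtain ⟨K0, _, caa, _, _, hcaa, _, _⟩ := hex x hx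
    refine ⟨(deriv f x.2.1 / f x.2.1) • er, caa, (deriv Am x.2.1 / (2 * Am x.2.1)) • et,
      ?_, hcaa, ?_, ?_⟩
    · intro u
      unfold Gam
      rw [D1, D2, D3, map_smul]
      change deriv f x.2.1 / f x.2.1 * h x er u = _
      rw [E3]
      field_simp
      ring
    · intro u
      unfold Gam
      rw [D4, D5, map_smul]
      change deriv Am x.2.1 / (2 * Am x.2.1) * h x et u = _
      rw [E1]
      field_simp
      ring
    · -- second derivatives
      have S1 : dd (fun y => h y et et) x er er = 0 := by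
        unfold dd
        have h1 : (fun y => fderiv ℝ (fun y => h y et et) y er) = fun _ => (0 : ℝ) := by
          funext y
          exact D1 y et
        rw [h1]
        simp
      have S3 : dd (fun y => h y er et) x er et = 0 := by
        unfold dd
        have h1 : (fun y => fderiv ℝ (fun y => h y er et) y et) = fun _ => (0 : ℝ) := by
          funext y
          exact D3 y et
        rw [h1]
        simp
      have S2' : dd (fun y => h y er er) x et et =
          2 * (deriv f x.2.1 ^ 2 + f x.2.1 * deriv (deriv f) x.2.1) * M x er := by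
        unfold dd
        have hdiff : DifferentiableAt ℝ (fun y => fderiv ℝ (fun y => h y er er) y et) x := by
          have h1 : ContDiff ℝ 1 (fun y => fderiv ℝ (fun y => h y er er) y) :=
            (hd2 er er).fderiv_right (by norm_num)
          exact ((h1.clm_apply contDiff_const).differentiable (by norm_num)) x
        have h1 : HasDerivAt (fun t : ℝ => 2 * f (x.2.1 + t) * deriv f (x.2.1 + t) * M x er)
            (2 * (deriv f x.2.1 ^ 2 + f x.2.1 * deriv (deriv f) x.2.1) * M x er) 0 := by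
          have h2 := (((hshift f _ _ (hf1 x.2.1)).const_mul 2).mul
            (hshift (deriv f) _ _ (hf2 x.2.1))).mul_const (M x er)
          refine HasDerivAt.congr_deriv h2 ?_
          simp only [add_zero]
          ring
        refine fderiv_line hdiff (fun t => ?_) h1
        change fderiv ℝ (fun y => h y er er) (x + t • et) et = _
        rw [D2, hMt]
        simp [et]
      have T1 : h x caa ((deriv Am x.2.1 / (2 * Am x.2.1)) • et) =
          -(deriv Am x.2.1 / (2 * Am x.2.1) * (f x.2.1 * deriv f x.2.1 * M x er)) := by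
        rw [map_smul, smul_eq_mul, hcaa et]
        unfold Gam
        rw [D3, D2]
        ring
      have T2 : h x ((deriv f x.2.1 / f x.2.1) • er) ((deriv f x.2.1 / f x.2.1) • er) =
          deriv f x.2.1 ^ 2 * M x er := by
        rw [map_smul, map_smul, smul_eq_mul]
        change deriv f x.2.1 / f x.2.1 * (deriv f x.2.1 / f x.2.1 * h x er er) = _
        rw [E3]
        field_simp
      rw [S1, S2', S3, T1, T2]
      field_simp
      ring

end Pool.Agent.Helper30.QL
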